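import Pool.Agent.Hhelper85.CZ.Defs

/-!
# Parametrisation of the ideals of a class by a half lattice

PAPER PROOF. Write `O = 𝓞 K`, `d = discr K < 0`, `D = -d`.

(1) `O` has a ℤ-basis `(1, ω)`: take any basis `(e0, e1)` (finrank 2), `1 = p e0 + q e1`; a common
divisor `g` of `p, q` would make `1 = g x`, so `g` is a unit of `O`, hence `g = ±1` (an integer
invertible in `O` is `±1`, e.g. by the norm `g^2 x' = 1`); Bezout `u p + v q = 1`; put
`ω = -v e0 + u e1`; then `e0 = u·1 - q ω`, `e1 = v·1 + p ω`.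
Write `ω^2 = t ω - q0` with integers `t, q0`. Then (matrix of multiplication in the basis `(1,ω)`,
`Algebra.leftMulMatrix`, `Algebra.norm_eq_matrix_det`, `Algebra.trace_eq_matrix_trace`,
`Algebra.discr_def`, `NumberField.discr_eq_discr`) `norm (m + n ω) = m^2 + t m n + q0 n^2`,
`discr K = t^2 - 4 q0`. So `4 norm(m + n ω) = (2m + t n)^2 + D n^2`; in particular norms are
`>= 0`, and `Ideal.absNorm (span {x}) = norm x` (`Ideal.absNorm_span_singleton`).
Units: if `D > 4` and `norm (m + nω) = 1` then `n = 0`, `m = ±1`.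

(2) Let `a` be the minimal norm of an integral ideal in the class `A`, attained at `𝔪`
(`Nat.find`/well-foundedness). `a <= (2/π) sqrt D` by
`NumberField.exists_ideal_in_class_of_norm_le` (`nrComplexPlaces K <= 1` since
`r1 + 2 r2 = 2`; no need to know the sign theorem). As `a ∈ 𝔪` (`Ideal.absNorm_mem`) there is `J` with
`J 𝔪 = span {a}` (`Ideal.dvd_span_singleton`/`dvd_iff_le`), `absNorm J = a^2 / a = a`, and the class
of `J` is `A⁻¹` (`ClassGroup.mk0_eq_mk0_inv_iff`...).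

(3) `J ∩ ℤ = a ℤ`: if `g ∈ J`, `g ≠ 0` an integer then `span {g} = J I` for some `I`, `[I] = A`,
`N(I) = g^2 / a >= a`, so `|g| >= a`; reduce mod `a`. Hence `0, 1, ..., a-1` are pairwise
incongruent mod `J`, and as `O/J` has exactly `a = absNorm J` elements (`Ideal.absNorm` is
`Submodule.cardQuot`), every element of `O` is congruent to an integer mod `J`. So there is an
integer `b` with `ω - b ∈ J`, and `J = { m a + n (ω - b) }` (for `x = m' + n ω ∈ J`,
`x - n (ω - b)` is an integer in `J`). The pair `(m, n)` is unique.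

(4) For `(m, n) ≠ 0` put `α = m a + n (ω - b) = (m a - n b) + n ω`. `4 norm α =
(2 m a - 2 n b + t n)^2 + D n^2 = 4 a^2 ((m + n θ)^2 + n^2 D / (4 a^2))` with
`θ = (t - 2 b) / (2 a)`. Let `I(m,n)` be the ideal with `J I(m,n) = span {α}`; it lies in the class
`A` and has norm `norm α / a = a ((m + nθ)^2 + n^2 D/(4a^2))`. Injective on the half lattice:
`span {α} = span {α'}` gives `α' = u α`, `u` a unit, so `u = ±1`, and both in the half lattice
forces `u = 1`. Surjective: for `I` in the class `A`, `J I` is principal (class 1), `= span {α}`,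
`0 ≠ α ∈ J`; replace `α` by `-α` if needed. Use `Equiv.ofBijective`.

(5) `class_trivial`: `a <= (2/π) * 2 < 2`, so `A` contains an ideal of norm 1, which is `⊤`.
-/

open scoped NumberField nonZeroDivisors

namespace Pool.Hhelper85.CZ

/-- An integer dividing `1` in the ring of integers is `±1`. -/
theorem int_dvd_one {K : Type} [Field K] [NumberField K] {g : ℤ} {x : 𝓞 K}
    (h : (g : 𝓞 K) * x = 1) : g = 1 ∨ g = -1 := by
  have h1 := congrArg (Algebra.norm ℤ) h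
  rw [map_mul, map_one] at h1
  have h2 : Algebra.norm ℤ (g : 𝓞 K) = g ^ (Module.finrank ℤ (𝓞 K)) := by
    have := Algebra.norm_algebraMap (S := 𝓞 K) g
    simpa using this
  rw [h2] at h1
  have h3 : IsUnit (g ^ (Module.finrank ℤ (𝓞 K))) := IsUnit.of_mul_eq_one _ h1
  have h4 : Module.finrank ℤ (𝓞 K) ≠ 0 := by
    rw [NumberField.RingOfIntegers.rank]
    exact Module.finrank_pos.ne'
  exact Int.isUnit_iff.mp ((isUnit_pow_iff h4).mp h3)

/-- An integral basis `(1, ω)` of a quadratic field. -/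
theorem exists_basis (K : Type) [Field K] [NumberField K] (h2 : Module.finrank ℚ K = 2) :
    ∃ B : Module.Basis (Fin 2) ℤ (𝓞 K), B 0 = 1 := by
  classical
  have hr : Module.finrank ℤ (𝓞 K) = 2 := by rw [NumberField.RingOfIntegers.rank, h2]
  let e : Module.Basis (Fin 2) ℤ (𝓞 K) := Module.finBasisOfFinrankEq ℤ (𝓞 K) hr
  set p : ℤ := e.repr 1 0 with hp
  set q : ℤ := e.repr 1 1 with hq
  have h1 : (1 : 𝓞 K) = (p : 𝓞 K) * e 0 + (q : 𝓞 K) * e 1 := by
    have := e.sum_repr (1 : 𝓞 K)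
    rw [Fin.sum_univ_two] at this
    rw [← zsmul_eq_mul, ← zsmul_eq_mul]
    exact this.symm
  have hgcd : IsCoprime p q := by
    rw [Int.isCoprime_iff_gcd_eq_one]
    obtain ⟨p', hp'⟩ := Int.gcd_dvd_left p q
    obtain ⟨q', hq'⟩ := Int.gcd_dvd_right p q
    have h3 : (((Int.gcd p q : ℕ) : ℤ) : 𝓞 K) * ((p' : 𝓞 K) * e 0 + (q' : 𝓞 K) * e 1) = 1 := by
      have hpp := congrArg (Int.cast (R := 𝓞 K)) hp'
      have hqq := congrArg (Int.cast (R := 𝓞 K)) hq'
      rw [Int.cast_mul] at hpp hqq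
      linear_combination (-1) * h1 - e 0 * hpp - e 1 * hqq
    rcases int_dvd_one h3 with h4 | h4 <;> omega
  obtain ⟨u, v, huv⟩ := hgcd
  set ω : 𝓞 K := -(v : 𝓞 K) * e 0 + (u : 𝓞 K) * e 1 with hω
  have huv' : (u : 𝓞 K) * p + v * q = 1 := by exact_mod_cast congrArg (Int.cast (R := 𝓞 K)) huv
  have he0 : e 0 = (u : 𝓞 K) * 1 - (q : 𝓞 K) * ω := by
    rw [hω, h1]
    linear_combination (-e 0) * huv'
  have he1 : e 1 = (v : 𝓞 K) * 1 + (p : 𝓞 K) * ω := by
    rw [hω, h1]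
    linear_combination (-e 1) * huv'
  have hli : LinearIndependent ℤ ![(1 : 𝓞 K), ω] := by
    rw [LinearIndependent.pair_iff]
    intro s t hst
    have h5 : (s * p - t * v) • e 0 + (s * q + t * u) • e 1 = 0 := by
      rw [← hst, zsmul_eq_mul, zsmul_eq_mul, zsmul_eq_mul, zsmul_eq_mul, hω]
      push_cast
      linear_combination (-(s : 𝓞 K)) * h1
    have hle := e.linearIndependent
    rw [Fintype.linearIndependent_iff] at hle
    have h6 := hle ![s * p - t * v, s * q + t * u] (by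
      rw [Fin.sum_univ_two]
      simpa using h5)
    have h7 : s * p - t * v = 0 := h6 0
    have h8 : s * q + t * u = 0 := h6 1
    constructor
    · linear_combination (-s) * huv + u * h7 + v * h8
    · linear_combination (-t) * huv - q * h7 + p * h8
  have hsp : ⊤ ≤ Submodule.span ℤ (Set.range ![(1 : 𝓞 K), ω]) := by
    have m1 : (1 : 𝓞 K) ∈ Submodule.span ℤ (Set.range ![(1 : 𝓞 K), ω]) :=
      Submodule.subset_span ⟨0, rfl⟩
    have m2 : ω ∈ Submodule.span ℤ (Set.range ![(1 : 𝓞 K), ω]) :=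
      Submodule.subset_span ⟨1, rfl⟩
    rw [← e.span_eq, Submodule.span_le]
    rintro _ ⟨i, rfl⟩
    fin_cases i
    · change e 0 ∈ _
      rw [he0, ← zsmul_eq_mul, ← zsmul_eq_mul]
      exact Submodule.sub_mem _ (Submodule.smul_mem _ _ m1) (Submodule.smul_mem _ _ m2)
    · change e 1 ∈ _
      rw [he1, ← zsmul_eq_mul, ← zsmul_eq_mul]
      exact Submodule.add_mem _ (Submodule.smul_mem _ _ m1) (Submodule.smul_mem _ _ m2)
  refine ⟨Module.Basis.mk hli hsp, ?_⟩
  rw [Module.Basis.mk_apply]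
  rfl

/-- Integral coordinates, norm form and discriminant of a quadratic field. -/
theorem exists_omega (K : Type) [Field K] [NumberField K] (h2 : Module.finrank ℚ K = 2) :
    ∃ (ω : 𝓞 K) (t q : ℤ), (∀ x : 𝓞 K, ∃ m n : ℤ, x = m + n * ω) ∧
      (∀ m n : ℤ, (m : 𝓞 K) + n * ω = 0 → m = 0 ∧ n = 0) ∧
      (∀ m n : ℤ, Algebra.norm ℤ ((m : 𝓞 K) + n * ω) = m ^ 2 + t * m * n + q * n ^ 2) ∧
      NumberField.discr K = t ^ 2 - 4 * q := by
  classical
  obtain ⟨B, hB⟩ := exists_basis K h2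
  set ω : 𝓞 K := B 1 with hω
  have hall : ∀ x : 𝓞 K, x = (B.repr x 0 : 𝓞 K) + (B.repr x 1 : 𝓞 K) * ω := by
    intro x
    have := B.sum_repr x
    rw [Fin.sum_univ_two, hB, zsmul_eq_mul, zsmul_eq_mul, mul_one] at this
    exact this.symm
  have hrep : ∀ m n : ℤ, B.repr ((m : 𝓞 K) + n * ω) 0 = m ∧ B.repr ((m : 𝓞 K) + n * ω) 1 = n := by
    intro m n
    have h1 : (m : 𝓞 K) + n * ω = m • B 0 + n • B 1 := by
      rw [hB, zsmul_eq_mul, zsmul_eq_mul, mul_one]
    rw [h1, map_add, map_smul, map_smul, B.repr_self, B.repr_self]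
    constructor <;> simp
  set t : ℤ := B.repr (ω * ω) 1 with ht
  set q : ℤ := -B.repr (ω * ω) 0 with hq
  have hωω : ω * ω = -(q : 𝓞 K) + (t : 𝓞 K) * ω := by
    have := hall (ω * ω)
    rw [this, hq, ← ht]
    push_cast
    ring
  have hmat : ∀ m n : ℤ, Algebra.leftMulMatrix B ((m : 𝓞 K) + n * ω) =
      !![m, -(n * q); n, m + n * t] := by
    intro m n
    have e0 : ((m : 𝓞 K) + n * ω) * B 0 = (m : 𝓞 K) + n * ω := by rw [hB, mul_one]
    have e1 : ((m : 𝓞 K) + n * ω) * B 1 = ((-(n * q) : ℤ) : 𝓞 K) + ((m + n * t : ℤ) : 𝓞 K) * ω := by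
      rw [← hω]
      push_cast
      linear_combination (n : 𝓞 K) * hωω
    ext i j
    rw [Algebra.leftMulMatrix_eq_repr_mul]
    fin_cases j
    · change B.repr (((m : 𝓞 K) + n * ω) * B 0) i = _
      rw [e0]
      fin_cases i
      · exact (hrep m n).1
      · exact (hrep m n).2
    · change B.repr (((m : 𝓞 K) + n * ω) * B 1) i = _
      rw [e1]
      fin_cases i
      · exact (hrep _ _).1
      · exact (hrep _ _).2
  have hnorm : ∀ m n : ℤ, Algebra.norm ℤ ((m : 𝓞 K) + n * ω) = m ^ 2 + t * m * n + q * n ^ 2 := by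
    intro m n
    rw [Algebra.norm_eq_matrix_det B, hmat, Matrix.det_fin_two_of]
    ring
  have htr : ∀ m n : ℤ, Algebra.trace ℤ (𝓞 K) ((m : 𝓞 K) + n * ω) = 2 * m + n * t := by
    intro m n
    rw [Algebra.trace_eq_matrix_trace B, hmat, Matrix.trace_fin_two_of]
    ring
  refine ⟨ω, t, q, fun x => ⟨_, _, hall x⟩, ?_, hnorm, ?_⟩
  · intro m n h
    have h1 := hrep m n
    simp only [h, map_zero, Finsupp.coe_zero, Pi.zero_apply] at h1
    exact ⟨h1.1.symm, h1.2.symm⟩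
  · rw [← NumberField.discr_eq_discr K B, Algebra.discr_def, Matrix.det_fin_two]
    have t00 : Algebra.traceMatrix ℤ (B) 0 0 = 2 := by
      rw [Algebra.traceMatrix_apply, Algebra.traceForm_apply, hB, mul_one]
      have := htr 1 0
      simpa using this
    have t01 : Algebra.traceMatrix ℤ (B) 0 1 = t := by
      rw [Algebra.traceMatrix_apply, Algebra.traceForm_apply, hB, one_mul]
      have := htr 0 1
      simpa using this
    have t10 : Algebra.traceMatrix ℤ (B) 1 0 = t := by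
      rw [Algebra.traceMatrix_apply, Algebra.traceForm_apply, hB, mul_one]
      have := htr 0 1
      simpa using this
    have t11 : Algebra.traceMatrix ℤ (B) 1 1 = t ^ 2 - 2 * q := by
      rw [Algebra.traceMatrix_apply, Algebra.traceForm_apply, ← hω, hωω]
      have := htr (-q) t
      rw [Int.cast_neg] at this
      rw [this]
      ring
    rw [t00, t01, t10, t11]
    ring


theorem minkowski_le (K : Type) [Field K] [NumberField K] (h2 : Module.finrank ℚ K = 2)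
    (A : ClassGroup (𝓞 K)) :
    ∃ I : (Ideal (𝓞 K))⁰, ClassGroup.mk0 I = A ∧
      (Ideal.absNorm (I : Ideal (𝓞 K)) : ℝ) ≤
        2 / Real.pi * Real.sqrt |(NumberField.discr K : ℝ)| := by
  obtain ⟨I, hI, hle⟩ := NumberField.exists_ideal_in_class_of_norm_le A
  refine ⟨I, hI, hle.trans ?_⟩
  have hr := NumberField.InfinitePlace.card_add_two_mul_card_eq_rank K
  rw [h2] at hr
  have hc : NumberField.InfinitePlace.nrComplexPlaces K ≤ 1 := by omega
  have hpi := Real.pi_pos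
  have hpi4 := Real.pi_le_four
  have h1 : (4 / Real.pi) ^ NumberField.InfinitePlace.nrComplexPlaces K ≤ 4 / Real.pi := by
    calc (4 / Real.pi) ^ NumberField.InfinitePlace.nrComplexPlaces K ≤ (4 / Real.pi) ^ 1 :=
          pow_le_pow_right₀ ((one_le_div hpi).mpr hpi4) hc
      _ = 4 / Real.pi := pow_one _
  rw [h2]
  have hfac : (((Nat.factorial 2 : ℕ) : ℝ) / ((2 : ℕ) : ℝ) ^ 2) = 1 / 2 := by
    norm_num [Nat.factorial]
  rw [hfac]
  have hs := Real.sqrt_nonneg |(NumberField.discr K : ℝ)|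
  calc (4 / Real.pi) ^ NumberField.InfinitePlace.nrComplexPlaces K *
      (1 / 2 * Real.sqrt |(NumberField.discr K : ℝ)|)
      ≤ 4 / Real.pi * (1 / 2 * Real.sqrt |(NumberField.discr K : ℝ)|) :=
        mul_le_mul_of_nonneg_right h1 (by positivity)
    _ = 2 / Real.pi * Real.sqrt |(NumberField.discr K : ℝ)| := by ring

/-- `4 (m² + t m n + q n²) = (2m + tn)² + (4q - t²) n²`. -/
theorem form_nonneg {t q : ℤ} (hD : 0 < 4 * q - t ^ 2) (m n : ℤ) :
    0 ≤ m ^ 2 + t * m * n + q * n ^ 2 := by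
  nlinarith [sq_nonneg (2 * m + t * n), mul_nonneg hD.le (sq_nonneg n)]

theorem form_eq_one {t q : ℤ} (hD : 4 < 4 * q - t ^ 2) {m n : ℤ}
    (h : m ^ 2 + t * m * n + q * n ^ 2 = 1) : n = 0 ∧ (m = 1 ∨ m = -1) := by
  have hn : n = 0 := by
    by_contra hn
    have h1 : 1 ≤ n ^ 2 := by
      have := sq_pos_of_ne_zero hn
      omega
    nlinarith [sq_nonneg (2 * m + t * n)]
  subst hn
  refine ⟨rfl, ?_⟩
  have h3 : (m - 1) * (m + 1) = 0 := by linarith
  rcases mul_eq_zero.mp h3 with h4 | h4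
  · left; omega
  · right; omega

theorem exists_cofactor (K : Type) [Field K] [NumberField K] (A : ClassGroup (𝓞 K))
    {J : Ideal (𝓞 K)} (hJ : J ∈ (Ideal (𝓞 K))⁰) (hJA : ClassGroup.mk0 ⟨J, hJ⟩ = A⁻¹)
    {x : 𝓞 K} (hx : x ∈ J) (hx0 : x ≠ 0) :
    ∃ I : (Ideal (𝓞 K))⁰, ClassGroup.mk0 I = A ∧
      J * (I : Ideal (𝓞 K)) = Ideal.span {x} := by
  obtain ⟨I, hI⟩ := Ideal.dvd_iff_le.mpr ((Ideal.span_singleton_le_iff_mem J).mpr hx)
  have hI0 : I ≠ 0 := by
    rintro rfl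
    rw [mul_zero, Ideal.zero_eq_bot, Ideal.span_singleton_eq_bot] at hI
    exact hx0 hI
  refine ⟨⟨I, mem_nonZeroDivisors_iff_ne_zero.mpr hI0⟩, ?_, hI.symm⟩
  have h1 : ClassGroup.mk0 (⟨I, mem_nonZeroDivisors_iff_ne_zero.mpr hI0⟩ : (Ideal (𝓞 K))⁰) =
      (ClassGroup.mk0 ⟨J, hJ⟩)⁻¹ :=
    ClassGroup.mk0_eq_mk0_inv_iff.mpr ⟨x, hx0, by rw [mul_comm]; exact hI.symm⟩
  rw [h1, hJA, inv_inv]

theorem exists_min_ideal (K : Type) [Field K] [NumberField K] (h2 : Module.finrank ℚ K = 2)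
    (A : ClassGroup (𝓞 K)) :
    ∃ (a : ℕ) (J : Ideal (𝓞 K)) (hJ : J ∈ (Ideal (𝓞 K))⁰), 1 ≤ a ∧
      (a : ℝ) ≤ 2 / Real.pi * Real.sqrt |(NumberField.discr K : ℝ)| ∧
      ClassGroup.mk0 ⟨J, hJ⟩ = A⁻¹ ∧ Ideal.absNorm J = a ∧ (a : 𝓞 K) ∈ J ∧
      ∀ I : (Ideal (𝓞 K))⁰, ClassGroup.mk0 I = A → a ≤ Ideal.absNorm (I : Ideal (𝓞 K)) := by
  classical
  obtain ⟨I₀, hI₀, hle⟩ := minkowski_le K h2 A
  have hex : ∃ n : ℕ, ∃ I : (Ideal (𝓞 K))⁰, ClassGroup.mk0 I = A ∧
      Ideal.absNorm (I : Ideal (𝓞 K)) = n := ⟨_, I₀, hI₀, rfl⟩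
  obtain ⟨M, hM, hMa⟩ := Nat.find_spec hex
  set a : ℕ := Nat.find hex with ha
  have hmin : ∀ I : (Ideal (𝓞 K))⁰, ClassGroup.mk0 I = A → a ≤ Ideal.absNorm (I : Ideal (𝓞 K)) :=
    fun I hI => Nat.find_min' hex ⟨I, hI, rfl⟩
  have ha1 : 1 ≤ a := by
    rw [← hMa]
    exact Ideal.absNorm_pos_of_nonZeroDivisors M
  have haM : (a : 𝓞 K) ∈ (M : Ideal (𝓞 K)) := by
    rw [← hMa]
    exact Ideal.absNorm_mem _
  have ha0 : (a : 𝓞 K) ≠ 0 := Nat.cast_ne_zero.mpr (by omega)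
  obtain ⟨J, hJA, hJM⟩ := exists_cofactor K A⁻¹ M.2 (by rw [inv_inv]; exact hM) haM ha0
  refine ⟨a, J, J.2, ha1, ?_, hJA, ?_, ?_, hmin⟩
  · refine le_trans ?_ hle
    exact_mod_cast hmin I₀ hI₀
  · have h1 := congrArg Ideal.absNorm hJM
    rw [map_mul, hMa, Ideal.absNorm_span_singleton] at h1
    have h3 : Algebra.norm ℤ (a : 𝓞 K) = (a : ℤ) ^ 2 := by
      have := Algebra.norm_algebraMap (S := 𝓞 K) (a : ℤ)
      rw [NumberField.RingOfIntegers.rank, h2] at this
      simpa using this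
    rw [h3, Int.natAbs_pow, Int.natAbs_natCast, sq] at h1
    exact Nat.eq_of_mul_eq_mul_left (by omega) h1
  · have h1 : (a : 𝓞 K) ∈ (M : Ideal (𝓞 K)) * (J : Ideal (𝓞 K)) := by
      rw [hJM]
      exact Ideal.mem_span_singleton_self _
    exact Ideal.mul_le_right h1


/-- In the ideal `J` the integers are the multiples of `a = absNorm J`. -/
theorem int_mem (K : Type) [Field K] [NumberField K] (h2 : Module.finrank ℚ K = 2)
    (A : ClassGroup (𝓞 K)) {a : ℕ} {J : Ideal (𝓞 K)} (hJ : J ∈ (Ideal (𝓞 K))⁰) (ha : 1 ≤ a)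
    (hJA : ClassGroup.mk0 ⟨J, hJ⟩ = A⁻¹) (hJa : Ideal.absNorm J = a) (haJ : (a : 𝓞 K) ∈ J)
    (hmin : ∀ I : (Ideal (𝓞 K))⁰, ClassGroup.mk0 I = A → a ≤ Ideal.absNorm (I : Ideal (𝓞 K)))
    {g : ℤ} (hg : (g : 𝓞 K) ∈ J) : (a : ℤ) ∣ g := by
  have hr : ((g % (a : ℤ) : ℤ) : 𝓞 K) ∈ J := by
    have h1 : ((g % (a : ℤ) : ℤ) : 𝓞 K) = (g : 𝓞 K) - (a : 𝓞 K) * ((g / (a : ℤ) : ℤ) : 𝓞 K) := by
      have h3 := congrArg (Int.cast (R := 𝓞 K)) (Int.emod_def g a)
      rw [h3]
      push_cast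
      ring
    rw [h1]
    exact J.sub_mem hg (J.mul_mem_right _ haJ)
  have hr0 : 0 ≤ g % (a : ℤ) := Int.emod_nonneg _ (by omega)
  have hr1 : g % (a : ℤ) < a := Int.emod_lt_of_pos _ (by omega)
  by_contra hnd
  have hne : g % (a : ℤ) ≠ 0 := fun h => hnd (Int.dvd_of_emod_eq_zero h)
  set r : ℤ := g % (a : ℤ) with hrdef
  have hrne : (r : 𝓞 K) ≠ 0 := Int.cast_ne_zero.mpr hne
  obtain ⟨I, hIA, hI⟩ := exists_cofactor K A hJ hJA hr hrne
  have h1 := congrArg Ideal.absNorm hI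
  rw [map_mul, hJa, Ideal.absNorm_span_singleton] at h1
  have h3 : Algebra.norm ℤ (r : 𝓞 K) = r ^ 2 := by
    have := Algebra.norm_algebraMap (S := 𝓞 K) r
    rw [NumberField.RingOfIntegers.rank, h2] at this
    simpa using this
  rw [h3, Int.natAbs_pow] at h1
  have h4 := hmin I hIA
  have h5 : a * a ≤ r.natAbs ^ 2 := by
    rw [← h1]
    exact Nat.mul_le_mul_left a h4
  have h6 : r.natAbs < a := by omega
  rw [sq] at h5
  exact absurd h5 (not_le.mpr (Nat.mul_self_lt_mul_self h6))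

/-- Every element is congruent to an integer modulo `J`. -/
theorem exists_int_congr (K : Type) [Field K] [NumberField K] {a : ℕ} {J : Ideal (𝓞 K)}
    (ha : 1 ≤ a) (hJa : Ideal.absNorm J = a) (hdvd : ∀ g : ℤ, (g : 𝓞 K) ∈ J → (a : ℤ) ∣ g)
    (x : 𝓞 K) : ∃ b : ℤ, x - b ∈ J := by
  have hcard : Nat.card (𝓞 K ⧸ J) = a := by
    rw [← hJa, Ideal.absNorm_apply, Submodule.cardQuot_apply]
  have : Finite (𝓞 K ⧸ J) := Nat.finite_of_card_ne_zero (by omega)
  have hinj : Function.Injective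
      (fun i : Fin a => (Ideal.Quotient.mk J) (((i : ℕ) : ℤ) : 𝓞 K)) := by
    intro i j hij
    have h1 := Ideal.Quotient.eq.mp hij
    rw [← Int.cast_sub] at h1
    have h3 := hdvd _ h1
    have hi := i.2
    have hj := j.2
    have h4 := Int.eq_zero_of_abs_lt_dvd h3 (by rw [abs_lt]; omega)
    ext
    omega
  have hbij := hinj.bijective_of_nat_card_le (by rw [hcard, Nat.card_eq_fintype_card,
    Fintype.card_fin])
  obtain ⟨i, hi⟩ := hbij.2 (Ideal.Quotient.mk J x)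
  exact ⟨((i : ℕ) : ℤ), Ideal.Quotient.eq.mp hi.symm⟩


/-- A unit of norm form value with discriminant `< -4` is `±1`. -/
theorem unit_pm (K : Type) [Field K] [NumberField K] {ω : 𝓞 K} {t q : ℤ}
    (hspan : ∀ x : 𝓞 K, ∃ m n : ℤ, x = m + n * ω)
    (hnorm : ∀ m n : ℤ, Algebra.norm ℤ ((m : 𝓞 K) + n * ω) = m ^ 2 + t * m * n + q * n ^ 2)
    (hD : 4 < 4 * q - t ^ 2) (u : (𝓞 K)ˣ) : (u : 𝓞 K) = 1 ∨ (u : 𝓞 K) = -1 := by
  obtain ⟨m, n, hmn⟩ := hspan (u : 𝓞 K)
  have h1 : IsUnit (Algebra.norm ℤ (u : 𝓞 K)) := u.isUnit.map (Algebra.norm ℤ)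
  rw [hmn, hnorm] at h1
  have h3 : m ^ 2 + t * m * n + q * n ^ 2 = 1 := by
    rcases Int.isUnit_iff.mp h1 with h | h
    · exact h
    · have := form_nonneg (by linarith : 0 < 4 * q - t ^ 2) m n
      omega
  obtain ⟨hn, hm⟩ := form_eq_one hD h3
  rw [hmn, hn]
  rcases hm with hm | hm
  · left; rw [hm]; simp
  · right; rw [hm]; simp

theorem half_or (p : ℤ × ℤ) (hp : p ≠ 0) : Half p ∨ Half (-p) := by
  unfold Half
  rcases p with ⟨m, n⟩
  simp only [Prod.fst_neg, Prod.snd_neg]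
  have : ¬ (m = 0 ∧ n = 0) := by
    rintro ⟨rfl, rfl⟩
    exact hp rfl
  omega

theorem half_not_neg {p : ℤ × ℤ} (hp : Half p) : ¬ Half (-p) := by
  unfold Half at *
  rcases p with ⟨m, n⟩
  simp only [Prod.fst_neg, Prod.snd_neg]
  simp only at hp
  omega

theorem half_ne_zero {p : ℤ × ℤ} (hp : Half p) : p ≠ 0 := by
  rintro rfl
  unfold Half at hp
  simp at hp

/-- Ideals in a class of an imaginary quadratic field with discriminant `< -4` are parametrised
by the half lattice, the norm being a binary quadratic form whose first coefficient is the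
minimal norm in the class. -/
theorem class_param (K : Type) [Field K] [NumberField K] (h2 : Module.finrank ℚ K = 2)
    (hD : NumberField.discr K < -4) (A : ClassGroup (𝓞 K)) :
    ∃ (a : ℕ) (θ : ℝ) (e : {p : ℤ × ℤ // Half p} ≃
        {I : (Ideal (𝓞 K))⁰ // ClassGroup.mk0 I = A}),
      1 ≤ a ∧ (a : ℝ) ≤ 2 / Real.pi * Real.sqrt |(NumberField.discr K : ℝ)| ∧
      ∀ p : {p : ℤ × ℤ // Half p}, (Ideal.absNorm ((e p).1 : Ideal (𝓞 K)) : ℝ) =
        a * (((p.1.1 : ℝ) + p.1.2 * θ) ^ 2 +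
          (p.1.2 : ℝ) ^ 2 * (|(NumberField.discr K : ℝ)| / (4 * (a : ℝ) ^ 2))) := by
  classical
  obtain ⟨ω, t, q, hspan, hind, hnorm, hdisc⟩ := exists_omega K h2
  rw [hdisc] at hD
  have hD4 : 4 < 4 * q - t ^ 2 := by linarith
  have habs : |(NumberField.discr K : ℝ)| = 4 * q - t ^ 2 := by
    rw [hdisc]
    push_cast
    have h1 : (4 : ℝ) < 4 * q - t ^ 2 := by exact_mod_cast hD4
    rw [abs_of_neg (by linarith)]
    ring
  obtain ⟨a, J, hJ, ha, hbound, hJA, hJa, haJ, hmin⟩ := exists_min_ideal K h2 A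
  have hdvd : ∀ g : ℤ, (g : 𝓞 K) ∈ J → (a : ℤ) ∣ g :=
    fun g hg => int_mem K h2 A hJ ha hJA hJa haJ hmin hg
  obtain ⟨b, hb⟩ := exists_int_congr K ha hJa hdvd ω
  have haZ : (a : ℤ) ≠ 0 := by omega
  -- the element attached to a lattice point
  let α : ℤ × ℤ → 𝓞 K := fun p => ((p.1 * a - p.2 * b : ℤ) : 𝓞 K) + (p.2 : 𝓞 K) * ω
  have hα_mem : ∀ p, α p ∈ J := by
    intro p
    have h1 : α p = (a : 𝓞 K) * (p.1 : 𝓞 K) + (ω - b) * (p.2 : 𝓞 K) := by
      simp only [α]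
      push_cast
      ring
    rw [h1]
    exact J.add_mem (J.mul_mem_right _ haJ) (J.mul_mem_right _ hb)
  have hα_zero : ∀ p, α p = 0 → p = 0 := by
    intro p hp
    obtain ⟨h1, h3⟩ := hind _ _ hp
    rw [h3, zero_mul, sub_zero] at h1
    exact Prod.ext ((mul_eq_zero.mp h1).resolve_right haZ) h3
  have hα_neg : ∀ p, α (-p) = -α p := by
    intro p
    simp only [α, Prod.fst_neg, Prod.snd_neg]
    push_cast
    ring
  have hα_inj : Function.Injective α := by
    intro p p' h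
    have h1 : α (p - p') = 0 := by
      have h3 : α (p - p') = α p - α p' := by
        simp only [α, Prod.fst_sub, Prod.snd_sub]
        push_cast
        ring
      rw [h3, h, sub_self]
    exact sub_eq_zero.mp (hα_zero _ h1)
  have hα_surj : ∀ x ∈ J, ∃ p, α p = x := by
    intro x hx
    obtain ⟨m, n, rfl⟩ := hspan x
    have h1 : ((m + n * b : ℤ) : 𝓞 K) ∈ J := by
      have h3 : ((m + n * b : ℤ) : 𝓞 K) = ((m : 𝓞 K) + n * ω) - (ω - b) * (n : 𝓞 K) := by
        push_cast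
        ring
      rw [h3]
      exact J.sub_mem hx (J.mul_mem_right _ hb)
    obtain ⟨c, hc⟩ := hdvd _ h1
    refine ⟨(c, n), ?_⟩
    simp only [α]
    have h3 : c * (a : ℤ) - n * b = m := by linarith
    rw [h3]
  have hα_norm : ∀ p, ((Ideal.absNorm (Ideal.span {α p}) : ℕ) : ℝ) =
      (a : ℝ) * (a * (((p.1 : ℝ) + p.2 * (((t : ℝ) - 2 * b) / (2 * a))) ^ 2 +
          (p.2 : ℝ) ^ 2 * (|(NumberField.discr K : ℝ)| / (4 * (a : ℝ) ^ 2)))) := by
    intro p
    have haR : (a : ℝ) ≠ 0 := by exact_mod_cast haZ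
    rw [Ideal.absNorm_span_singleton, hnorm, habs]
    have h1 := form_nonneg (by linarith : 0 < 4 * q - t ^ 2) (p.1 * a - p.2 * b) p.2
    have h3 : ((((p.1 * a - p.2 * b) ^ 2 + t * (p.1 * a - p.2 * b) * p.2 + q * p.2 ^ 2).natAbs :
        ℕ) : ℝ) = (((p.1 * a - p.2 * b) ^ 2 + t * (p.1 * a - p.2 * b) * p.2 + q * p.2 ^ 2 : ℤ) :
          ℝ) := by
      rw [← Int.cast_natCast, Int.natAbs_of_nonneg h1]
    rw [h3]
    push_cast
    field_simp
    ring
  have hI : ∀ p : {p : ℤ × ℤ // Half p}, ∃ I : (Ideal (𝓞 K))⁰, ClassGroup.mk0 I = A ∧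
      J * (I : Ideal (𝓞 K)) = Ideal.span {α p.1} := by
    intro p
    exact exists_cofactor K A hJ hJA (hα_mem p.1) (fun h => half_ne_zero p.2 (hα_zero _ h))
  choose I hIA hIJ using hI
  have hJ0 : J ≠ 0 := nonZeroDivisors.ne_zero hJ
  let f : {p : ℤ × ℤ // Half p} → {I : (Ideal (𝓞 K))⁰ // ClassGroup.mk0 I = A} :=
    fun p => ⟨I p, hIA p⟩
  have hinj : Function.Injective f := by
    intro p p' h
    have h1 : I p = I p' := congrArg Subtype.val h
    have h3 : Ideal.span {α p.1} = Ideal.span {α p'.1} := by rw [← hIJ, ← hIJ, h1]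
    rw [Ideal.span_singleton_eq_span_singleton] at h3
    obtain ⟨u, hu⟩ := h3
    rcases unit_pm K hspan hnorm hD4 u with h4 | h4
    · rw [h4, mul_one] at hu
      exact Subtype.ext (hα_inj hu)
    · exfalso
      rw [h4, mul_neg, mul_one, ← hα_neg] at hu
      have h5 := hα_inj hu
      have h6 := p'.2
      rw [← h5] at h6
      exact half_not_neg p.2 h6
  have hsurj : Function.Surjective f := by
    rintro ⟨I', hI'⟩
    have h1 : ClassGroup.mk0 I' = (ClassGroup.mk0 (⟨J, hJ⟩ : (Ideal (𝓞 K))⁰))⁻¹ := by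
      rw [hJA, inv_inv, hI']
    obtain ⟨x, hx0, hx⟩ := ClassGroup.mk0_eq_mk0_inv_iff.mp h1
    have hx' : J * (I' : Ideal (𝓞 K)) = Ideal.span {x} := by
      rw [← hx, mul_comm]
    have hxJ : x ∈ J := by
      have : x ∈ J * (I' : Ideal (𝓞 K)) := by
        rw [hx']
        exact Ideal.mem_span_singleton_self x
      exact Ideal.mul_le_left this
    obtain ⟨p, hp⟩ := hα_surj x hxJ
    have hp0 : p ≠ 0 := by
      rintro rfl
      have h4 : α 0 = 0 := by simp [α]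
      exact hx0 (hp.symm.trans h4)
    rcases half_or p hp0 with h4 | h4
    · refine ⟨⟨p, h4⟩, Subtype.ext (Subtype.ext ?_)⟩
      refine mul_left_cancel₀ hJ0 ?_
      rw [hx', ← hp]
      exact hIJ ⟨p, h4⟩
    · refine ⟨⟨-p, h4⟩, Subtype.ext (Subtype.ext ?_)⟩
      refine mul_left_cancel₀ hJ0 ?_
      rw [hx', ← hp]
      refine (hIJ ⟨-p, h4⟩).trans ?_
      change Ideal.span {α (-p)} = _
      rw [hα_neg, Ideal.span_singleton_neg]
  refine ⟨a, ((t : ℝ) - 2 * b) / (2 * a), Equiv.ofBijective f ⟨hinj, hsurj⟩, ha, hbound, ?_⟩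
  intro p
  have h1 := hα_norm p.1
  rw [← hIJ p, map_mul, hJa, Nat.cast_mul] at h1
  have haR : (a : ℝ) ≠ 0 := by exact_mod_cast haZ
  exact mul_left_cancel₀ haR h1

/-- For discriminant `-3` and `-4` the class group is trivial. -/
theorem class_trivial (K : Type) [Field K] [NumberField K] (h2 : Module.finrank ℚ K = 2)
    (hD : NumberField.discr K < 0) (hD' : -4 ≤ NumberField.discr K) (A : ClassGroup (𝓞 K)) :
    A = 1 := by
  obtain ⟨I, hI, hle⟩ := minkowski_le K h2 A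
  have h1 : |(NumberField.discr K : ℝ)| ≤ 4 := by
    have h3 : (NumberField.discr K : ℝ) < 0 := by exact_mod_cast hD
    have h4 : (-4 : ℝ) ≤ NumberField.discr K := by exact_mod_cast hD'
    rw [abs_of_neg h3]
    linarith
  have h3 : Real.sqrt |(NumberField.discr K : ℝ)| ≤ 2 := by
    rw [show (2 : ℝ) = Real.sqrt 4 by
      rw [show (4 : ℝ) = 2 ^ 2 by norm_num, Real.sqrt_sq (by norm_num)]]
    exact Real.sqrt_le_sqrt h1
  have hpi := Real.pi_gt_three
  have h4 : (Ideal.absNorm (I : Ideal (𝓞 K)) : ℝ) < 2 := by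
    refine lt_of_le_of_lt hle ?_
    have h5 : 2 / Real.pi * Real.sqrt |(NumberField.discr K : ℝ)| ≤ 2 / Real.pi * 2 :=
      mul_le_mul_of_nonneg_left h3 (by positivity)
    refine lt_of_le_of_lt h5 ?_
    rw [div_mul_eq_mul_div, div_lt_iff₀ (by linarith)]
    linarith
  have h5 : Ideal.absNorm (I : Ideal (𝓞 K)) = 1 := by
    have h6 : Ideal.absNorm (I : Ideal (𝓞 K)) < 2 := by exact_mod_cast h4
    have h7 := Ideal.absNorm_pos_of_nonZeroDivisors I
    omega
  rw [Ideal.absNorm_eq_one_iff] at h5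
  rw [← hI]
  have h6 : I = 1 := Subtype.ext (by rw [h5, ← Ideal.one_eq_top]; rfl)
  rw [h6, map_one]

end Pool.Hhelper85.CZ
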