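import Pool.Agent.Hhelper85.CZ.Defs

/-!
# The Moebius function on ideals

PAPER PROOF of `sum_mob`. If `n = 1` the only divisor is `1`, `mob 1 = 1`. If `n ≠ 1` choose a prime
ideal `P ∣ n`. Drop the non-squarefree divisors (their `mob` is `0`); the squarefree divisors not
divisible by `P` correspond to those divisible by `P` via `b ↦ P b`, and `mob` changes sign.
-/

open scoped NumberField nonZeroDivisors

namespace Pool.Hhelper85.CZ

open Classical in
/-- The Moebius function on the non-zero ideals. -/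
noncomputable def mob (K : Type) [Field K] [NumberField K] (b : (Ideal (𝓞 K))⁰) : ℤ :=
  if Squarefree (b : Ideal (𝓞 K)) then
    (-1) ^ (Multiset.card (UniqueFactorizationMonoid.normalizedFactors (b : Ideal (𝓞 K)))) else 0

theorem abs_mob_le (K : Type) [Field K] [NumberField K] (b : (Ideal (𝓞 K))⁰) :
    |mob K b| ≤ 1 := by
  unfold mob
  split_ifs
  · simp [abs_pow]
  · simp

open Classical in
theorem mob_mul (K : Type) [Field K] [NumberField K] (P b : (Ideal (𝓞 K))⁰)
    (hP : Irreducible (P : Ideal (𝓞 K))) (hb : Squarefree (b : Ideal (𝓞 K)))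
    (hPb : ¬ (P : Ideal (𝓞 K)) ∣ (b : Ideal (𝓞 K))) :
    mob K (P * b) = - mob K b := by
  have hsq : Squarefree ((P * b : (Ideal (𝓞 K))⁰) : Ideal (𝓞 K)) := by
    rw [Submonoid.coe_mul, squarefree_mul_iff]
    exact ⟨hP.isRelPrime_iff_not_dvd.mpr hPb, hP.squarefree, hb⟩
  have hP0 : (P : Ideal (𝓞 K)) ≠ 0 := nonZeroDivisors.coe_ne_zero P
  have hb0 : (b : Ideal (𝓞 K)) ≠ 0 := nonZeroDivisors.coe_ne_zero b
  unfold mob
  rw [if_pos hsq, if_pos hb, Submonoid.coe_mul,
    UniqueFactorizationMonoid.normalizedFactors_mul hP0 hb0,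
    UniqueFactorizationMonoid.normalizedFactors_irreducible hP, Multiset.card_add,
    Multiset.card_singleton, pow_add]
  ring

open Classical in
theorem sum_mob (K : Type) [Field K] [NumberField K] (n : (Ideal (𝓞 K))⁰)
    (s : Finset (Ideal (𝓞 K))⁰) (hs : ∀ b, b ∈ s ↔ (b : Ideal (𝓞 K)) ∣ (n : Ideal (𝓞 K))) :
    ∑ b ∈ s, mob K b = if n = 1 then 1 else 0 := by
  have hn0 : (n : Ideal (𝓞 K)) ≠ 0 := nonZeroDivisors.coe_ne_zero n
  split_ifs with hn
  · have hs1 : s = {1} := by
      ext b
      rw [hs, hn, Finset.mem_singleton]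
      constructor
      · intro h
        have h1 : (b : Ideal (𝓞 K)) = 1 := by
          have : IsUnit (b : Ideal (𝓞 K)) := isUnit_of_dvd_one h
          simpa using this
        exact Subtype.ext h1
      · rintro rfl
        exact dvd_rfl
    rw [hs1, Finset.sum_singleton]
    unfold mob
    rw [OneMemClass.coe_one, if_pos squarefree_one, UniqueFactorizationMonoid.normalizedFactors_one]
    simp
  · have hnu : ¬ IsUnit (n : Ideal (𝓞 K)) := by
      intro h
      apply hn
      have : (n : Ideal (𝓞 K)) = 1 := by simpa using h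
      exact Subtype.ext this
    obtain ⟨P, hP, hPn⟩ := WfDvdMonoid.exists_irreducible_factor hnu hn0
    have hP0 : P ≠ 0 := hP.ne_zero
    let P' : (Ideal (𝓞 K))⁰ := ⟨P, mem_nonZeroDivisors_of_ne_zero hP0⟩
    have hsplit : ∑ b ∈ s, mob K b =
        ∑ b ∈ s.filter (fun b : (Ideal (𝓞 K))⁰ => Squarefree (b : Ideal (𝓞 K))), mob K b := by
      rw [Finset.sum_filter]
      refine Finset.sum_congr rfl fun b _ => ?_
      unfold mob
      split_ifs <;> rfl
    rw [hsplit, ← Finset.sum_filter_add_sum_filter_not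
      (s.filter (fun b : (Ideal (𝓞 K))⁰ => Squarefree (b : Ideal (𝓞 K))))
      (fun b : (Ideal (𝓞 K))⁰ => P ∣ (b : Ideal (𝓞 K)))]
    have hbij : ∑ b ∈ (s.filter (fun b : (Ideal (𝓞 K))⁰ => Squarefree (b : Ideal (𝓞 K)))).filter
          (fun b : (Ideal (𝓞 K))⁰ => ¬ P ∣ (b : Ideal (𝓞 K))), (- mob K b) =
        ∑ b ∈ (s.filter (fun b : (Ideal (𝓞 K))⁰ => Squarefree (b : Ideal (𝓞 K)))).filter
          (fun b : (Ideal (𝓞 K))⁰ => P ∣ (b : Ideal (𝓞 K))), mob K b := by
      refine Finset.sum_bij (fun b _ => P' * b) ?_ ?_ ?_ ?_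
      · intro b hb
        simp only [Finset.mem_filter] at hb ⊢
        obtain ⟨⟨hbs, hbq⟩, hPb⟩ := hb
        have hrel : IsRelPrime P (b : Ideal (𝓞 K)) := hP.isRelPrime_iff_not_dvd.mpr hPb
        refine ⟨⟨?_, ?_⟩, ?_⟩
        · rw [hs, Submonoid.coe_mul]
          exact hrel.mul_dvd hPn ((hs b).mp hbs)
        · rw [Submonoid.coe_mul, squarefree_mul_iff]
          exact ⟨hrel, hP.squarefree, hbq⟩
        · rw [Submonoid.coe_mul]
          exact Dvd.intro _ rfl
      · intro b _ c _ h
        exact mul_left_cancel h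
      · intro c hc
        simp only [Finset.mem_filter] at hc
        obtain ⟨⟨hcs, hcq⟩, hPc⟩ := hc
        obtain ⟨d, hd⟩ := hPc
        have hc0 : (c : Ideal (𝓞 K)) ≠ 0 := nonZeroDivisors.coe_ne_zero c
        have hd0 : d ≠ 0 := by
          rintro rfl
          exact hc0 (by rw [hd, mul_zero])
        have hsq := hcq
        rw [hd, squarefree_mul_iff] at hsq
        refine ⟨⟨d, mem_nonZeroDivisors_of_ne_zero hd0⟩, ?_, ?_⟩
        · simp only [Finset.mem_filter]
          refine ⟨⟨?_, hsq.2.2⟩, hP.isRelPrime_iff_not_dvd.mp hsq.1⟩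
          rw [hs]
          refine dvd_trans ?_ ((hs c).mp hcs)
          rw [hd]
          exact Dvd.intro_left _ rfl
        · exact Subtype.ext hd.symm
      · intro b hb
        simp only [Finset.mem_filter] at hb
        exact (mob_mul K P' b hP hb.1.2 hb.2).symm
    rw [← hbij, ← Finset.sum_add_distrib]
    exact Finset.sum_eq_zero fun b _ => by ring

end Pool.Hhelper85.CZ
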