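import Mathlib

/-!
# Class group L-functions of imaginary quadratic fields: basic definitions
-/

open scoped NumberField nonZeroDivisors

namespace Pool.Hhelper85.CZ

/-- The number of non-zero integral ideals of norm `n` in the ideal class `A`. -/
noncomputable def rCl (K : Type) [Field K] [NumberField K] (A : ClassGroup (𝓞 K)) (n : ℕ) : ℕ :=
  Nat.card {I : (Ideal (𝓞 K))⁰ // ClassGroup.mk0 I = A ∧
    Ideal.absNorm (I : Ideal (𝓞 K)) = n}

/-- The index set of the half lattice: `(m, n)` with `n > 0`, or `n = 0` and `m > 0`. -/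
def Half (p : ℤ × ℤ) : Prop := 0 < p.2 ∨ (p.2 = 0 ∧ 0 < p.1)

end Pool.Hhelper85.CZ
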