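import Pool.Agent.Hhelper85.CZ.Divisors
import Pool.Agent.Hhelper85.CZ.Mobius

/-!
# Norms of ideals, finite sets of ideals of bounded norm, uniform bounds for zeta sums
-/

open scoped NumberField nonZeroDivisors

namespace Pool.Hhelper85.CZ

section
variable (K : Type) [Field K] [NumberField K]

/-- The norm of a non-zero ideal. -/
noncomputable def nm (I : (Ideal (𝓞 K))⁰) : ℕ := Ideal.absNorm (I : Ideal (𝓞 K))

variable {K}

theorem nm_pos (I : (Ideal (𝓞 K))⁰) : 0 < nm K I :=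
  Nat.pos_of_ne_zero (Ideal.absNorm_ne_zero_of_nonZeroDivisors I)

theorem nm_mul (I J : (Ideal (𝓞 K))⁰) : nm K (I * J) = nm K I * nm K J := by
  simp [nm]

theorem nm_one : nm K 1 = 1 := by
  simp [nm]

theorem nm_eq_one_iff (I : (Ideal (𝓞 K))⁰) : nm K I = 1 ↔ I = 1 := by
  rw [nm, Ideal.absNorm_eq_one_iff, ← Ideal.one_eq_top]
  constructor
  · intro h; exact Subtype.ext (by simpa using h)
  · intro h; subst h; rfl

theorem one_le_nm (I : (Ideal (𝓞 K))⁰) : (1 : ℝ) ≤ nm K I := by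
  exact_mod_cast nm_pos I

theorem finite_idl (x : ℝ) : {I : (Ideal (𝓞 K))⁰ | (nm K I : ℝ) ≤ x}.Finite := by
  have h := Ideal.finite_setOfPred_absNorm_le (S := 𝓞 K) ⌊x⌋₊
  refine Set.Finite.of_finite_image (f := fun I : (Ideal (𝓞 K))⁰ => (I : Ideal (𝓞 K)))
    (h.subset ?_) Subtype.val_injective.injOn
  rintro _ ⟨I, hI, rfl⟩
  exact Nat.le_floor hI

variable (K) in
/-- The finite set of non-zero ideals of norm at most `x`. -/
noncomputable def idl (x : ℝ) : Finset (Ideal (𝓞 K))⁰ := (finite_idl (K := K) x).toFinset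

theorem mem_idl {x : ℝ} {I : (Ideal (𝓞 K))⁰} : I ∈ idl K x ↔ (nm K I : ℝ) ≤ x := by
  simp [idl]

/-- The term `N(I)^(-s)`. -/
noncomputable def w (s : ℂ) (I : (Ideal (𝓞 K))⁰) : ℂ := (nm K I : ℂ) ^ (-s)

theorem w_mul (s : ℂ) (I J : (Ideal (𝓞 K))⁰) : w s (I * J) = w s I * w s J := by
  rw [w, w, w, nm_mul, Nat.cast_mul, Complex.natCast_mul_natCast_cpow]

theorem w_one (s : ℂ) : w s (1 : (Ideal (𝓞 K))⁰) = 1 := by
  rw [w, nm_one]; simp

theorem norm_w (s : ℂ) (I : (Ideal (𝓞 K))⁰) : ‖w s I‖ = (nm K I : ℝ) ^ (-s.re) := by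
  rw [w, Complex.norm_natCast_cpow_of_pos (nm_pos I)]; simp

theorem norm_w_le {s : ℂ} {σ : ℝ} (h : σ ≤ s.re) (I : (Ideal (𝓞 K))⁰) :
    ‖w s I‖ ≤ (nm K I : ℝ) ^ (-σ) := by
  rw [norm_w]
  exact Real.rpow_le_rpow_of_exponent_le (one_le_nm I) (by linarith)

end

/-- `ζ_K(σ)` is bounded uniformly in the quadratic field `K`. -/
theorem sum_nm_le (σ : ℝ) (hσ : 1 < σ) : ∃ C : ℝ, 1 ≤ C ∧
    ∀ (K : Type) [Field K] [NumberField K], Module.finrank ℚ K = 2 →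
    ∀ S : Finset (Ideal (𝓞 K))⁰, ∑ I ∈ S, (nm K I : ℝ) ^ (-σ) ≤ C := by
  obtain ⟨C2, hC2, h2⟩ := norm_count_bound ((σ - 1) / 2) (by linarith)
  have hsum : Summable (fun n : ℕ => (n : ℝ) ^ (-(1 + (σ - 1) / 2))) :=
    Real.summable_nat_rpow.2 (by linarith)
  set Z := ∑' n : ℕ, (n : ℝ) ^ (-(1 + (σ - 1) / 2)) with hZ
  have hZ1 : 1 ≤ Z := by
    have := hsum.le_tsum 1 (fun n _ => by positivity)
    rw [Nat.cast_one, Real.one_rpow] at this
    exact this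
  refine ⟨C2 * Z, by nlinarith, ?_⟩
  intro K _ _ hK S
  classical
  rw [Finset.sum_comp (fun n : ℕ => (n : ℝ) ^ (-σ)) (fun I => nm K I)]
  have key : ∀ n ∈ S.image (fun I => nm K I),
      (S.filter (fun I => nm K I = n)).card • (n : ℝ) ^ (-σ) ≤
        C2 * (n : ℝ) ^ (-(1 + (σ - 1) / 2)) := by
    intro n hn
    obtain ⟨I, hI, rfl⟩ := Finset.mem_image.1 hn
    have hpos : 0 < nm K I := nm_pos I
    obtain ⟨hf, hb⟩ := h2 K hK (nm K I) hpos
    have hcard : (S.filter (fun J => nm K J = nm K I)).card ≤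
        {J : Ideal (𝓞 K) | Ideal.absNorm J = nm K I}.ncard := by
      rw [← Set.ncard_coe_finset]
      rw [← Set.ncard_image_of_injective _
        (Subtype.val_injective : Function.Injective (fun J : (Ideal (𝓞 K))⁰ => (J : Ideal (𝓞 K))))]
      refine Set.ncard_le_ncard ?_ hf
      rintro _ ⟨J, hJ, rfl⟩
      simpa [nm] using (Finset.mem_filter.1 (Finset.mem_coe.1 hJ)).2
    have hcard' : ((S.filter (fun J => nm K J = nm K I)).card : ℝ) ≤
        C2 * (nm K I : ℝ) ^ ((σ - 1) / 2) := le_trans (by exact_mod_cast hcard) hb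
    rw [nsmul_eq_mul]
    have hpos' : (0 : ℝ) < nm K I := by exact_mod_cast hpos
    calc ((S.filter (fun J => nm K J = nm K I)).card : ℝ) * (nm K I : ℝ) ^ (-σ)
        ≤ (C2 * (nm K I : ℝ) ^ ((σ - 1) / 2)) * (nm K I : ℝ) ^ (-σ) := by gcongr
      _ = C2 * (nm K I : ℝ) ^ (-(1 + (σ - 1) / 2)) := by
        rw [mul_assoc, ← Real.rpow_add hpos']
        congr 2
        ring
  refine (Finset.sum_le_sum key).trans ?_
  rw [← Finset.mul_sum]
  gcongr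
  exact hsum.sum_le_tsum _ (fun n _ => by positivity)

theorem summable_nm (K : Type) [Field K] [NumberField K] (hK : Module.finrank ℚ K = 2)
    (σ : ℝ) (hσ : 1 < σ) : Summable (fun I : (Ideal (𝓞 K))⁰ => (nm K I : ℝ) ^ (-σ)) := by
  obtain ⟨C, _, h⟩ := sum_nm_le σ hσ
  exact summable_of_sum_le (fun I => by positivity) (h K hK)

/-- Far to the right, `ζ_K(σ) - 1` is small, uniformly in the quadratic field `K`. -/
theorem sum_nm_small : ∃ σ₀ : ℝ, 2 ≤ σ₀ ∧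
    ∀ (K : Type) [Field K] [NumberField K], Module.finrank ℚ K = 2 →
    ∀ S : Finset (Ideal (𝓞 K))⁰, (1 : (Ideal (𝓞 K))⁰) ∉ S →
      ∀ σ : ℝ, σ₀ ≤ σ → ∑ I ∈ S, (nm K I : ℝ) ^ (-σ) ≤ 1 / 5 := by
  obtain ⟨C, hC, h⟩ := sum_nm_le 2 (by norm_num)
  obtain ⟨k, hk⟩ := pow_unbounded_of_one_lt (5 * C) (by norm_num : (1 : ℝ) < 2)
  refine ⟨2 + k, by linarith [(Nat.cast_nonneg k : (0 : ℝ) ≤ k)], ?_⟩
  intro K _ _ hK S hS σ hσ
  have key : ∀ I ∈ S, (nm K I : ℝ) ^ (-σ) ≤ (nm K I : ℝ) ^ (-(2 : ℝ)) * (2 ^ k)⁻¹ := by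
    intro I hI
    have h1 : 2 ≤ nm K I := by
      have h2 : nm K I ≠ 1 := fun h3 => hS ((nm_eq_one_iff I).1 h3 ▸ hI)
      have := nm_pos I
      omega
    have h2 : (2 : ℝ) ≤ nm K I := by exact_mod_cast h1
    have h3 : (0 : ℝ) < nm K I := by linarith
    calc (nm K I : ℝ) ^ (-σ) ≤ (nm K I : ℝ) ^ (-(2 : ℝ) + -(k : ℝ)) :=
          Real.rpow_le_rpow_of_exponent_le (by linarith) (by linarith)
      _ = (nm K I : ℝ) ^ (-(2 : ℝ)) * ((nm K I : ℝ) ^ k)⁻¹ := by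
          rw [Real.rpow_add h3, Real.rpow_neg h3.le (k : ℝ), Real.rpow_natCast]
      _ ≤ _ := by gcongr
  refine (Finset.sum_le_sum key).trans ?_
  rw [← Finset.sum_mul]
  have h4 := h K hK S
  have h5 : (0 : ℝ) < 2 ^ k := by positivity
  calc (∑ I ∈ S, (nm K I : ℝ) ^ (-(2 : ℝ))) * (2 ^ k)⁻¹ ≤ C * (2 ^ k)⁻¹ := by gcongr
    _ ≤ 1 / 5 := by
      rw [← div_eq_mul_inv, div_le_iff₀ h5]
      linarith

end Pool.Hhelper85.CZ
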